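import Pool.Agent.Lib.MP_3d3a24_gt.Hull

/-!
# The centres `± (9/10) e_j`
-/

set_option autoImplicit false

namespace Pool.Agent.Lib.MP_3d3a24_gt

open Set Metric

variable {n : ℕ}

/-- The centres. -/
noncomputable def ctr (i : Fin n × Bool) : E n :=
  (if i.2 then (9 / 10 : ℝ) else -(9 / 10)) • EuclideanSpace.single i.1 (1 : ℝ)

theorem inner_ctr (x : E n) (i : Fin n × Bool) :
    inner ℝ x (ctr i) = (if i.2 then (9 / 10 : ℝ) else -(9 / 10)) * x i.1 := by
  rw [ctr, real_inner_smul_right, EuclideanSpace.inner_single_right]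
  simp

theorem norm_ctr (i : Fin n × Bool) : ‖(ctr i : E n)‖ = 9 / 10 := by
  rw [ctr, norm_smul, PiLp.norm_single]
  split_ifs
  · rw [Real.norm_eq_abs, abs_of_pos (by norm_num)]; norm_num
  · rw [Real.norm_eq_abs, abs_neg, abs_of_pos (by norm_num)]; norm_num

theorem two_coords {x : E n} {i j : Fin n} (hij : i ≠ j) : x i ^ 2 + x j ^ 2 ≤ ‖x‖ ^ 2 := by
  rw [EuclideanSpace.real_norm_sq_eq]
  rw [← Finset.sum_pair (f := fun k => x k ^ 2) hij]
  exact Finset.sum_le_sum_of_subset_of_nonneg (Finset.subset_univ _) fun k _ _ => sq_nonneg _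

theorem disj_ctr {i j : Fin n × Bool} (hij : i ≠ j) {x : E n} (hx : ‖x‖ = 1)
    (h : ‖(ctr j : E n)‖ ^ 2 < inner ℝ x (ctr j)) : inner ℝ x (ctr i) < ‖(ctr i : E n)‖ ^ 2 := by
  by_contra hc
  rw [not_lt] at hc
  rw [inner_ctr, norm_ctr] at h hc
  obtain ⟨i, s⟩ := i
  obtain ⟨j, t⟩ := j
  by_cases hk : i = j
  · subst hk
    have hst : s ≠ t := fun h' => hij (by rw [h'])
    cases s <;> cases t <;> simp at hst h hc <;> nlinarith
  · have h2 := two_coords (x := x) hk
    rw [hx] at h2
    have h3 : (81 / 100 : ℝ) ≤ x i ^ 2 := by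
      cases s <;> simp at hc <;> nlinarith
    have h4 : (81 / 100 : ℝ) ≤ x j ^ 2 := by
      cases t <;> simp at h <;> nlinarith
    linarith

/-- The starting point: `(3/5, 4/5, 0, …)` and, for `e = -1`, `(-3/5, 4/5, 0, …)`. -/
noncomputable def pt (i j : Fin n) (e : ℝ) : E n :=
  (e * (3 / 5)) • EuclideanSpace.single i (1 : ℝ) + (4 / 5 : ℝ) • EuclideanSpace.single j (1 : ℝ)

theorem pt_apply {i j : Fin n} (e : ℝ) (k : Fin n) :
    pt i j e k = e * (3 / 5) * (if k = i then 1 else 0) + (4 / 5) * (if k = j then 1 else 0) := by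
  simp [pt]

theorem norm_pt {i j : Fin n} (hij : i ≠ j) {e : ℝ} (he : e ^ 2 = 1) : ‖pt i j e‖ = 1 := by
  have h : ‖pt i j e‖ ^ 2 = 1 := by
    rw [pt, norm_add_sq_real, norm_smul, norm_smul, PiLp.norm_single,
      PiLp.norm_single, real_inner_smul_left, real_inner_smul_right,
      EuclideanSpace.inner_single_right, PiLp.single_apply]
    have hji : ¬ j = i := fun h => hij h.symm
    simp only [hji, if_false, map_zero, mul_zero, add_zero, Real.norm_eq_abs, abs_one, mul_one,
      sq_abs]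
    nlinarith
  nlinarith [norm_nonneg (pt i j e)]

theorem abs_pt_lt {i j : Fin n} (hij : i ≠ j) {e : ℝ} (he : |e| = 1) (k : Fin n) :
    |pt i j e k| < 9 / 10 := by
  rw [pt_apply]
  have h35 : |e * (3 / 5)| = 3 / 5 := by rw [abs_mul, he, abs_of_pos (by norm_num)]; norm_num
  by_cases h1 : k = i
  · have h2 : ¬ k = j := fun h => hij (h1.symm.trans h)
    rw [if_pos h1, if_neg h2, mul_one, mul_zero, add_zero, h35]
    norm_num
  · by_cases h2 : k = j
    · rw [if_neg h1, if_pos h2, mul_one, mul_zero, zero_add, abs_of_pos (by norm_num)]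
      norm_num
    · rw [if_neg h1, if_neg h2, mul_zero, mul_zero, zero_add, abs_zero]
      norm_num

theorem inner_pt_lt {i j : Fin n} (hij : i ≠ j) {e : ℝ} (he : |e| = 1) (k : Fin n × Bool) :
    inner ℝ (pt i j e) (ctr k) < ‖(ctr k : E n)‖ ^ 2 := by
  rw [inner_ctr, norm_ctr]
  have h := abs_lt.1 (abs_pt_lt hij he k.1)
  obtain ⟨k, b⟩ := k
  cases b <;> simp at h ⊢ <;> nlinarith [h.1, h.2]

theorem pingPong {i j : Fin n} (hij : i ≠ j) : PingPong (ctr (n := n)) (pt i j 1) where
  norm_lt k := by rw [norm_ctr]; norm_num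
  norm_base := norm_pt hij (by norm_num)
  base k := inner_pt_lt hij (by norm_num) k
  disj k l hkl x hx h := disj_ctr hkl hx h

theorem isBounded_body : Bornology.IsBounded (body (ctr (n := n))) := by
  refine (isBounded_closedBall (x := (0 : E n)) (r := √(n * (10 / 9) ^ 2))).subset fun x hx => ?_
  rw [mem_closedBall_zero_iff]
  have h1 : ∀ j : Fin n, x j ^ 2 ≤ (10 / 9) ^ 2 := by
    intro j
    have ha := hx (j, true)
    have hb := hx (j, false)
    rw [inner_ctr] at ha hb
    simp at ha hb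
    nlinarith
  have h2 : ‖x‖ ^ 2 ≤ n * (10 / 9) ^ 2 := by
    rw [EuclideanSpace.real_norm_sq_eq]
    calc ∑ j, x j ^ 2 ≤ ∑ _j : Fin n, ((10 / 9 : ℝ)) ^ 2 := Finset.sum_le_sum fun j _ => h1 j
      _ = n * (10 / 9) ^ 2 := by simp
  have := Real.abs_le_sqrt h2
  rwa [abs_of_nonneg (norm_nonneg x)] at this

/-- A convex set containing all centres has nonempty interior. -/
theorem interior_nonempty {K : Set (E n)} (hK : Convex ℝ K) (hn : 0 < n)
    (h : ∀ i, (ctr i : E n) ∈ K) : (interior K).Nonempty := by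
  rw [hK.interior_nonempty_iff_affineSpan_eq_top]
  have hne : ((affineSpan ℝ K : AffineSubspace ℝ (E n)) : Set (E n)).Nonempty :=
    ⟨_, subset_affineSpan ℝ K (h (⟨0, hn⟩, true))⟩
  rw [← AffineSubspace.direction_eq_top_iff_of_nonempty hne, eq_top_iff,
    ← (EuclideanSpace.basisFun (Fin n) ℝ).toBasis.span_eq, Submodule.span_le]
  rintro _ ⟨j, rfl⟩
  have h1 := AffineSubspace.vsub_mem_direction (subset_affineSpan ℝ K (h (j, true)))
    (subset_affineSpan ℝ K (h (j, false)))
  have h2 : (ctr (j, true) : E n) -ᵥ ctr (j, false) =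
      (9 / 5 : ℝ) • EuclideanSpace.single j (1 : ℝ) := by
    rw [vsub_eq_sub, ctr, ctr]
    simp only [if_true, Bool.false_eq_true, if_false]
    module
  rw [h2] at h1
  have h3 := Submodule.smul_mem _ (5 / 9 : ℝ) h1
  rw [smul_smul] at h3
  norm_num at h3
  simpa using h3

theorem body_eq : body (ctr (n := n)) = {x : E n | ∀ j, |x j| ≤ 10 / 9} := by
  ext x
  constructor
  · intro hx j
    have ha := hx (j, true)
    have hb := hx (j, false)
    rw [inner_ctr] at ha hb
    simp at ha hb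
    rw [abs_le]
    constructor <;> linarith
  · intro hx i
    have h := abs_le.1 (hx i.1)
    rw [inner_ctr]
    obtain ⟨j, b⟩ := i
    cases b <;> simp at h ⊢ <;> linarith [h.1, h.2]

/-- **Main theorem.** -/
theorem main (hn : 2 ≤ n) : ∃ K S : Set (E n), IsConvexBody K ∧ IsTopologicalSphere S ∧
    LiesInside K S ∧ (∀ p ∈ S, AppearsSymmetric K p) ∧ ¬ IsEllipsoid K ∧
    S = frontier {x : E n | ∀ j, |x j| ≤ 10 / 9} := by
  have hij : (⟨0, by omega⟩ : Fin n) ≠ ⟨1, by omega⟩ := by simp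
  set i : Fin n := ⟨0, by omega⟩
  set j : Fin n := ⟨1, by omega⟩
  have hpp := pingPong hij
  set A := orbitClosure (ctr (n := n)) (pt i j 1) with hA
  have hA1 : ∀ x ∈ A, ‖x‖ = 1 := fun x hx => orbitClosure_norm hpp hx
  have hAc : IsCompact A := isCompact_orbitClosure hpp
  have hAinv : ∀ k, ∀ x ∈ A, eta (ctr k) x ∈ A := fun k x hx => eta_mem_orbitClosure hpp k hx
  have hbase : pt i j 1 ∈ A := mem_orbitClosure_base _ _
  have hnorm : ∀ x ∈ hull A, ‖x‖ ≤ 1 := fun x hx => hull_norm hA1 hx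
  have hctr : ∀ k, (ctr k : E n) ∈ hull A := by
    intro k
    have h1 := c_mem_segment (hpp.norm_lt k) (hpp.norm_base.le)
    exact (convex_hull A).segment_subset (subset_hull A (hAinv k _ hbase))
      (subset_hull A hbase) h1
  have hint : (interior (hull A)).Nonempty :=
    interior_nonempty (convex_hull A) (by omega) hctr
  refine ⟨hull A, frontier (body (ctr (n := n))), ⟨convex_hull A, isCompact_hull hA1, hint⟩,
    isTopologicalSphere_frontier hpp.norm_lt isBounded_body,
    liesInside hpp.norm_lt isBounded_body ⟨_, subset_hull A hbase⟩ hnorm, ?_, ?_,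
    by rw [body_eq]⟩
  · intro p hp
    obtain ⟨k, hk⟩ := frontier_body hp
    refine appearsSymmetric (hpp.norm_lt k) ?_ hnorm
      (fun x hx => eta_mem_hull (hpp.norm_lt k) hA1 (hAinv k) hx) hk
    intro h0
    have := norm_ctr (n := n) k
    rw [h0, norm_zero] at this
    norm_num at this
  · refine not_isEllipsoid hAc hA1 hint (u := pt i j (-1)) (norm_pt hij (by norm_num)) ?_
    refine notMem_orbitClosure hpp ?_ fun k => inner_pt_lt hij (by norm_num) k
    intro h
    have h1 : pt i j (-1) i = pt i j 1 i := by rw [h]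
    rw [pt_apply, pt_apply, if_pos rfl, if_neg hij] at h1
    norm_num at h1

end Pool.Agent.Lib.MP_3d3a24_gt
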