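import Mathlib

/-!
# Convex bodies that look centrally symmetric from a surrounding sphere: definitions

Everything takes place in Euclidean `n`-space `E n`.
-/

set_option autoImplicit false

namespace Pool.Agent.Lib.MP_3d3a24_gt

open Set Metric

/-- Euclidean `n`-space. -/
abbrev E (n : ℕ) : Type := EuclideanSpace ℝ (Fin n)

variable {n : ℕ}

/-- A convex body: a compact convex set with nonempty interior. -/
structure IsConvexBody (K : Set (E n)) : Prop where
  convex : Convex ℝ K
  isCompact : IsCompact K
  interior_nonempty : (interior K).Nonempty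

/-- A closed surface homeomorphic to the sphere `S^{n-1}`. -/
def IsTopologicalSphere (S : Set (E n)) : Prop := Nonempty (S ≃ₜ sphere (0 : E n) 1)

/-- `K` lies inside `S`: `K` is contained in a bounded connected component of the complement
of `S`. -/
def LiesInside (K S : Set (E n)) : Prop :=
  ∃ x ∈ Sᶜ, Bornology.IsBounded (connectedComponentIn Sᶜ x) ∧ K ⊆ connectedComponentIn Sᶜ x

/-- The viewing cone of `K` from `p`: the union of the rays from `p` through the points of `K`. -/
def viewingCone (p : E n) (K : Set (E n)) : Set (E n) :=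
  {y | ∃ x ∈ K, ∃ t : ℝ, 0 ≤ t ∧ y = p + t • (x - p)}

/-- The set `A` is centrally symmetric. -/
def IsCentrallySymmetric (A : Set (E n)) : Prop :=
  ∃ c : E n, ∀ x ∈ A, (2 : ℝ) • c - x ∈ A

/-- `K` appears centrally symmetric from the point `p ∉ K`: there is a hyperplane
`H = {x | ⟪a, x⟫ = b}` with `p ∉ H` which meets each ray from `p` through a point of `K`, such that
the section of the viewing cone by `H` (that is, the central projection of `K` from `p` to `H`)
is bounded and centrally symmetric. -/
def AppearsSymmetric (K : Set (E n)) (p : E n) : Prop :=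
  p ∉ K ∧ ∃ (a : E n) (b : ℝ), a ≠ 0 ∧ inner ℝ a p ≠ b ∧
    (∀ x ∈ K, ∃ t : ℝ, 0 < t ∧ inner ℝ a (p + t • (x - p)) = b) ∧
    Bornology.IsBounded (viewingCone p K ∩ {x | inner ℝ a x = b}) ∧
    IsCentrallySymmetric (viewingCone p K ∩ {x | inner ℝ a x = b})

/-- A (solid) ellipsoid: the image of the closed unit ball under an invertible affine map. -/
def IsEllipsoid (K : Set (E n)) : Prop :=
  ∃ (L : E n ≃L[ℝ] E n) (c : E n), K = (fun x => c + L x) '' closedBall (0 : E n) 1

end Pool.Agent.Lib.MP_3d3a24_gt
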