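import Pool.Agent.Lib.MP_3d3a24_gt.Defs

/-!
# Harmonic homologies preserving the unit ball

For a point `c` of the open unit ball, `eta c` is the projective involution which preserves the
closed unit ball, fixes `c` and maps every chord through `c` to itself; its axis is the
hyperplane `{x | ⟪x, c⟫ = 1}` (polar to `c`).
-/

set_option autoImplicit false

namespace Pool.Agent.Lib.MP_3d3a24_gt

open Set Metric

variable {n : ℕ}

/-- The denominator of `eta`. -/
noncomputable def den (c x : E n) : ℝ := 1 - 2 * inner ℝ x c + ‖c‖ ^ 2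

/-- The numerator of `eta`. -/
noncomputable def num (c x : E n) : E n :=
  (2 * (1 - inner ℝ x c)) • c - (1 - ‖c‖ ^ 2) • x

/-- The harmonic homology with centre `c` and axis `{x | ⟪x, c⟫ = 1}`. -/
noncomputable def eta (c x : E n) : E n := (den c x)⁻¹ • num c x

theorem inner_lt_one {c x : E n} (hc : ‖c‖ < 1) (hx : ‖x‖ ≤ 1) : inner ℝ x c < 1 := by
  have h1 := real_inner_le_norm x c
  have h2 : ‖x‖ * ‖c‖ ≤ 1 * ‖c‖ := mul_le_mul_of_nonneg_right hx (norm_nonneg c)
  linarith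

theorem den_pos {c x : E n} (hc : ‖c‖ < 1) (hx : ‖x‖ ≤ 1) : 0 < den c x := by
  have h1 := real_inner_le_norm x c
  have h2 : ‖x‖ * ‖c‖ ≤ 1 * ‖c‖ := mul_le_mul_of_nonneg_right hx (norm_nonneg c)
  have h3 : 0 < (1 - ‖c‖) ^ 2 := by
    have : 0 < 1 - ‖c‖ := by linarith
    positivity
  rw [den]
  nlinarith

theorem inner_num (c x y : E n) :
    inner ℝ (num c x) y = 2 * (1 - inner ℝ x c) * inner ℝ c y - (1 - ‖c‖ ^ 2) * inner ℝ x y := by
  rw [num, inner_sub_left, real_inner_smul_left, real_inner_smul_left]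

theorem norm_num_sq (c x : E n) :
    ‖num c x‖ ^ 2 = den c x ^ 2 - (1 - ‖c‖ ^ 2) ^ 2 * (1 - ‖x‖ ^ 2) := by
  rw [← real_inner_self_eq_norm_sq (num c x), inner_num, real_inner_comm (num c x) c,
    real_inner_comm (num c x) x, inner_num, inner_num, real_inner_self_eq_norm_sq,
    real_inner_self_eq_norm_sq, real_inner_comm x c, den]
  ring

theorem norm_eta_sq {c x : E n} (hc : ‖c‖ < 1) (hx : ‖x‖ ≤ 1) :
    ‖eta c x‖ ^ 2 = 1 - (1 - ‖c‖ ^ 2) ^ 2 * (1 - ‖x‖ ^ 2) / den c x ^ 2 := by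
  have h := den_pos hc hx
  rw [eta, norm_smul, mul_pow, norm_num_sq, Real.norm_eq_abs, sq_abs]
  field_simp

theorem norm_eta_le {c x : E n} (hc : ‖c‖ < 1) (hx : ‖x‖ ≤ 1) : ‖eta c x‖ ≤ 1 := by
  have h := den_pos hc hx
  have h1 := norm_eta_sq hc hx
  have h2 : 0 ≤ (1 - ‖c‖ ^ 2) ^ 2 * (1 - ‖x‖ ^ 2) / den c x ^ 2 := by
    have : 0 ≤ 1 - ‖x‖ ^ 2 := by nlinarith [norm_nonneg x]
    positivity
  have h3 : ‖eta c x‖ ^ 2 ≤ 1 := by linarith
  nlinarith [norm_nonneg (eta c x)]

theorem norm_eta_eq {c x : E n} (hc : ‖c‖ < 1) (hx : ‖x‖ = 1) : ‖eta c x‖ = 1 := by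
  have h1 := norm_eta_sq hc hx.le
  rw [hx] at h1
  have h3 : ‖eta c x‖ ^ 2 = 1 := by rw [h1]; ring
  nlinarith [norm_nonneg (eta c x)]

theorem inner_eta_c {c x : E n} (hc : ‖c‖ < 1) (hx : ‖x‖ ≤ 1) :
    den c x * inner ℝ (eta c x) c = 2 * (1 - inner ℝ x c) * ‖c‖ ^ 2 -
      (1 - ‖c‖ ^ 2) * inner ℝ x c := by
  have h := (den_pos hc hx).ne'
  rw [eta, real_inner_smul_left, inner_num, real_inner_self_eq_norm_sq]
  field_simp

/-- `1 - ⟪η x, c⟫`. -/
theorem one_sub_inner_eta {c x : E n} (hc : ‖c‖ < 1) (hx : ‖x‖ ≤ 1) :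
    den c x * (1 - inner ℝ (eta c x) c) = (1 - ‖c‖ ^ 2) * (1 - inner ℝ x c) := by
  have := inner_eta_c hc hx
  rw [mul_sub, this, den]
  ring

theorem den_eta {c x : E n} (hc : ‖c‖ < 1) (hx : ‖x‖ ≤ 1) :
    den c x * den c (eta c x) = (1 - ‖c‖ ^ 2) ^ 2 := by
  have := inner_eta_c hc hx
  have e : den c (eta c x) = 1 - 2 * inner ℝ (eta c x) c + ‖c‖ ^ 2 := rfl
  rw [e]
  have : den c x * (1 - 2 * inner ℝ (eta c x) c + ‖c‖ ^ 2) =
      den c x * (1 + ‖c‖ ^ 2) - 2 * (den c x * inner ℝ (eta c x) c) := by ring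
  rw [this, inner_eta_c hc hx, den]
  ring

/-- `eta c` is an involution of the closed unit ball. -/
theorem eta_eta {c x : E n} (hc : ‖c‖ < 1) (hx : ‖x‖ ≤ 1) : eta c (eta c x) = x := by
  have h := (den_pos hc hx).ne'
  have h' := (den_pos hc (norm_eta_le hc hx)).ne'
  have hk : (1 - ‖c‖ ^ 2) ≠ 0 := by nlinarith [norm_nonneg c]
  have h1 := one_sub_inner_eta hc hx
  have h2 := den_eta hc hx
  have h3 : (den c x) • num c (eta c x) = ((1 - ‖c‖ ^ 2) ^ 2) • x := by
    have e : num c (eta c x) = (2 * (1 - inner ℝ (eta c x) c)) • c - (1 - ‖c‖ ^ 2) • eta c x := rfl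
    rw [e, smul_sub, smul_smul, smul_comm (den c x) (1 - ‖c‖ ^ 2) (eta c x)]
    have e2 : den c x • eta c x = num c x := by
      rw [eta, smul_smul, mul_inv_cancel₀ h, one_smul]
    rw [e2, num, smul_sub, smul_smul, smul_smul]
    have e3 : den c x * (2 * (1 - inner ℝ (eta c x) c)) =
        2 * ((1 - ‖c‖ ^ 2) * (1 - inner ℝ x c)) := by rw [← h1]; ring
    rw [e3]
    module
  have e4 : eta c (eta c x) = (den c (eta c x))⁻¹ • num c (eta c x) := rfl
  rw [e4]
  have h4 : num c (eta c x) = (den c (eta c x)) • x := by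
    have : (den c x) • num c (eta c x) = (den c x) • (den c (eta c x) • x) := by
      rw [h3, smul_smul, h2]
    exact smul_right_injective _ h this
  rw [h4, smul_smul, inv_mul_cancel₀ h', one_smul]

/-- The two sides of the hyperplane `{x | ⟪x, c⟫ = ‖c‖ ^ 2}` are exchanged. -/
theorem lt_inner_eta {c x : E n} (hc : ‖c‖ < 1) (hx : ‖x‖ ≤ 1) (h : inner ℝ x c < ‖c‖ ^ 2) :
    ‖c‖ ^ 2 < inner ℝ (eta c x) c := by
  have h1 := inner_eta_c hc hx
  have h2 := den_pos hc hx
  have h3 : 0 < 1 - ‖c‖ ^ 2 := by nlinarith [norm_nonneg c]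
  have h4 : den c x * (inner ℝ (eta c x) c - ‖c‖ ^ 2) = (1 - ‖c‖ ^ 2) * (‖c‖ ^ 2 - inner ℝ x c) := by
    rw [mul_sub, h1, den]; ring
  have h5 : 0 < den c x * (inner ℝ (eta c x) c - ‖c‖ ^ 2) := by
    rw [h4]; exact mul_pos h3 (by linarith)
  have := (pos_iff_pos_of_mul_pos h5).1 h2
  linarith

theorem continuous_num (c : E n) : Continuous (num c) := by
  unfold num
  fun_prop

theorem continuous_den (c : E n) : Continuous (den c) := by
  unfold den
  fun_prop

theorem continuousOn_eta {c : E n} (hc : ‖c‖ < 1) : ContinuousOn (eta c) (closedBall 0 1) := by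
  intro x hx
  rw [mem_closedBall_zero_iff] at hx
  refine ContinuousAt.continuousWithinAt ?_
  exact ((continuous_den c).continuousAt.inv₀ (den_pos hc hx).ne').smul
    (continuous_num c).continuousAt

/-- `eta c` is a projective map: the preimage of a convex set is convex. -/
theorem convex_preimage {c : E n} (hc : ‖c‖ < 1) {K : Set (E n)} (hK : Convex ℝ K) :
    Convex ℝ {x | ‖x‖ ≤ 1 ∧ eta c x ∈ K} := by
  intro x hx y hy a b ha hb hab
  obtain ⟨hx, hxK⟩ := hx
  obtain ⟨hy, hyK⟩ := hy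
  have hz : ‖a • x + b • y‖ ≤ 1 := by
    have h1 : x ∈ closedBall (0 : E n) 1 := mem_closedBall_zero_iff.2 hx
    have h2 : y ∈ closedBall (0 : E n) 1 := mem_closedBall_zero_iff.2 hy
    exact mem_closedBall_zero_iff.1 (convex_closedBall (0 : E n) 1 h1 h2 ha hb hab)
  refine ⟨hz, ?_⟩
  have dx := den_pos hc hx
  have dy := den_pos hc hy
  have dz := den_pos hc hz
  have hd : den c (a • x + b • y) = a * den c x + b * den c y := by
    rw [den, den, den, inner_add_left, real_inner_smul_left, real_inner_smul_left]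
    linear_combination (1 + ‖c‖ ^ 2) * (-hab)
  have hn : num c (a • x + b • y) = a • num c x + b • num c y := by
    rw [num, num, num, inner_add_left, real_inner_smul_left, real_inner_smul_left]
    have : (2 * (1 - (a * inner ℝ x c + b * inner ℝ y c))) =
        a * (2 * (1 - inner ℝ x c)) + b * (2 * (1 - inner ℝ y c)) := by
      linear_combination 2 * (-hab)
    rw [this]
    module
  have e : eta c (a • x + b • y) = (a * den c x / den c (a • x + b • y)) • eta c x +
      (b * den c y / den c (a • x + b • y)) • eta c y := by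
    have e1 : eta c (a • x + b • y) = (den c (a • x + b • y))⁻¹ • num c (a • x + b • y) := rfl
    rw [e1, hn, eta, eta, smul_add, smul_smul, smul_smul, smul_smul, smul_smul]
    congr 2
    · field_simp
    · field_simp
  rw [e]
  refine hK hxK hyK (by positivity) (by positivity) ?_
  rw [hd] at dz ⊢
  field_simp

theorem eta_mem_convexHull {c : E n} (hc : ‖c‖ < 1) {A : Set (E n)} (hA : ∀ x ∈ A, ‖x‖ ≤ 1)
    (hA' : ∀ x ∈ A, eta c x ∈ A) {x : E n} (hx : x ∈ convexHull ℝ A) :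
    eta c x ∈ convexHull ℝ A := by
  have h := convexHull_min (s := A) (t := {x | ‖x‖ ≤ 1 ∧ eta c x ∈ convexHull ℝ A})
    (fun y hy => ⟨hA y hy, subset_convexHull ℝ A (hA' y hy)⟩)
    (convex_preimage hc (convex_convexHull ℝ A))
  exact (h hx).2

/-- The centre `c` lies on the segment joining `x` and `eta c x`. -/
theorem c_mem_segment {c x : E n} (hc : ‖c‖ < 1) (hx : ‖x‖ ≤ 1) : c ∈ segment ℝ (eta c x) x := by
  have h := den_pos hc hx
  have h1 : 0 < 1 - inner ℝ x c := by linarith [inner_lt_one hc hx]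
  have h2 : 0 < 1 - ‖c‖ ^ 2 := by nlinarith [norm_nonneg c]
  refine ⟨den c x / (2 * (1 - inner ℝ x c)), (1 - ‖c‖ ^ 2) / (2 * (1 - inner ℝ x c)),
    by positivity, by positivity, ?_, ?_⟩
  · rw [← add_div, den, div_eq_one_iff_eq (by positivity)]
    ring
  · have e2 : (den c x / (2 * (1 - inner ℝ x c))) • eta c x =
        (1 / (2 * (1 - inner ℝ x c))) • num c x := by
      rw [eta, smul_smul]
      congr 1
      field_simp
    rw [e2, num, smul_sub, smul_smul, smul_smul]
    have e3 : 1 / (2 * (1 - inner ℝ x c)) * (2 * (1 - inner ℝ x c)) = 1 := by field_simp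
    have e4 : 1 / (2 * (1 - inner ℝ x c)) * (1 - ‖c‖ ^ 2) =
      (1 - ‖c‖ ^ 2) / (2 * (1 - inner ℝ x c)) := by field_simp
    rw [e3, e4, one_smul, sub_add_cancel]

/-- **Key observation.** If the harmonic homology with centre `c` preserves a subset `K` of the unit
ball, then `K` appears centrally symmetric from every point of the axis. -/
theorem appearsSymmetric {c : E n} (hc : ‖c‖ < 1) (hc0 : c ≠ 0) {K : Set (E n)}
    (hK : ∀ x ∈ K, ‖x‖ ≤ 1) (hK' : ∀ x ∈ K, eta c x ∈ K) {p : E n} (hp : inner ℝ p c = 1) :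
    AppearsSymmetric K p := by
  have hcn : ‖c‖ ^ 2 < 1 := by nlinarith [norm_nonneg c]
  -- the parameter at which a ray meets the hyperplane
  have hray : ∀ x ∈ K, ∀ t : ℝ, inner ℝ c (p + t • (x - p)) = ‖c‖ ^ 2 ↔
      t = (1 - ‖c‖ ^ 2) / (1 - inner ℝ x c) := by
    intro x hx t
    have h1 : 0 < 1 - inner ℝ x c := by linarith [inner_lt_one hc (hK x hx)]
    rw [inner_add_right, real_inner_smul_right, inner_sub_right, real_inner_comm p c, hp,
      real_inner_comm x c, eq_div_iff h1.ne']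
    constructor
    · intro h; linarith
    · intro h; linarith
  have hpos : ∀ x ∈ K, 0 < (1 - ‖c‖ ^ 2) / (1 - inner ℝ x c) := by
    intro x hx
    have h1 : 0 < 1 - inner ℝ x c := by linarith [inner_lt_one hc (hK x hx)]
    have h2 : 0 < 1 - ‖c‖ ^ 2 := by linarith
    positivity
  refine ⟨?_, c, ‖c‖ ^ 2, hc0, ?_, ?_, ?_, ?_⟩
  · intro hpK
    have := inner_lt_one hc (hK p hpK)
    linarith
  · rw [real_inner_comm p c, hp]
    exact hcn.ne'
  · intro x hx
    exact ⟨_, hpos x hx, (hray x hx _).2 rfl⟩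
  · -- bounded
    refine (isBounded_closedBall (x := (0 : E n)) (r := ‖p‖ + 2 * (1 + ‖p‖))).subset ?_
    rintro y ⟨⟨x, hx, t, ht, rfl⟩, hy⟩
    rw [mem_ofPred_eq, hray x hx] at hy
    rw [mem_closedBall_zero_iff]
    have h1 : 0 < 1 - inner ℝ x c := by linarith [inner_lt_one hc (hK x hx)]
    have ht2 : t ≤ 2 := by
      rw [hy, div_le_iff₀ h1]
      have h3 := real_inner_le_norm x c
      have h4 : ‖x‖ * ‖c‖ ≤ 1 * ‖c‖ := mul_le_mul_of_nonneg_right (hK x hx) (norm_nonneg c)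
      nlinarith [norm_nonneg c]
    calc ‖p + t • (x - p)‖ ≤ ‖p‖ + ‖t • (x - p)‖ := norm_add_le _ _
      _ = ‖p‖ + t * ‖x - p‖ := by rw [norm_smul, Real.norm_eq_abs, abs_of_nonneg ht]
      _ ≤ ‖p‖ + 2 * (1 + ‖p‖) := by
        have h5 : ‖x - p‖ ≤ 1 + ‖p‖ := (norm_sub_le x p).trans (by linarith [hK x hx])
        have h6 : t * ‖x - p‖ ≤ 2 * (1 + ‖p‖) :=
          mul_le_mul ht2 h5 (norm_nonneg _) (by norm_num)
        linarith
  · -- centrally symmetric
    refine ⟨c, ?_⟩
    rintro y ⟨⟨x, hx, t, ht, rfl⟩, hy⟩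
    rw [mem_ofPred_eq, hray x hx] at hy
    have h1 : 0 < 1 - inner ℝ x c := by linarith [inner_lt_one hc (hK x hx)]
    have hd := den_pos hc (hK x hx)
    have hk : 0 < 1 - ‖c‖ ^ 2 := by linarith
    -- the parameter of the opposite point
    have hs : (1 - ‖c‖ ^ 2) / (1 - inner ℝ (eta c x) c) = den c x / (1 - inner ℝ x c) := by
      have e1 := one_sub_inner_eta hc (hK x hx)
      have h1' : 0 < 1 - inner ℝ (eta c x) c := by
        linarith [inner_lt_one hc (norm_eta_le hc (hK x hx))]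
      rw [div_eq_div_iff h1'.ne' h1.ne']
      linarith
    have hpt : (2 : ℝ) • c - (p + t • (x - p)) =
        p + (den c x / (1 - inner ℝ x c)) • (eta c x - p) := by
      have e2 : (den c x / (1 - inner ℝ x c)) • eta c x =
          (1 / (1 - inner ℝ x c)) • num c x := by
        rw [eta, smul_smul]
        congr 1
        field_simp
      rw [smul_sub _ (eta c x) p, e2, num, smul_sub (1 / (1 - inner ℝ x c)), smul_smul, smul_smul]
      have e3 : 1 / (1 - inner ℝ x c) * (2 * (1 - inner ℝ x c)) = 2 := by field_simp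
      have e4 : 1 / (1 - inner ℝ x c) * (1 - ‖c‖ ^ 2) = t := by rw [hy]; field_simp
      have e5 : den c x / (1 - inner ℝ x c) = 2 - t := by
        rw [hy, den]
        field_simp
        ring
      rw [e3, e4, e5]
      module
    rw [hpt]
    refine ⟨⟨eta c x, hK' x hx, den c x / (1 - inner ℝ x c), by positivity, rfl⟩, ?_⟩
    rw [mem_ofPred_eq, hray _ (hK' x hx)]
    exact hs.symm

end Pool.Agent.Lib.MP_3d3a24_gt
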