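import Pool.Agent.Lib.MP_3d3a24_gt.Orbit

/-!
# The closed convex hull of an invariant subset of the sphere

It is not an ellipsoid if the subset is not the whole sphere.
-/

set_option autoImplicit false

namespace Pool.Agent.Lib.MP_3d3a24_gt

open Set Metric

variable {n : ℕ}

/-- The closed convex hull. -/
def hull (A : Set (E n)) : Set (E n) := closure (convexHull ℝ A)

theorem subset_hull (A : Set (E n)) : A ⊆ hull A :=
  (subset_convexHull ℝ A).trans subset_closure

theorem hull_norm {A : Set (E n)} (hA : ∀ x ∈ A, ‖x‖ = 1) {x : E n} (hx : x ∈ hull A) :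
    ‖x‖ ≤ 1 := by
  have h : hull A ⊆ closedBall (0 : E n) 1 := by
    refine closure_minimal (convexHull_min (fun y hy => ?_) (convex_closedBall _ _))
      isClosed_closedBall
    exact mem_closedBall_zero_iff.2 (hA y hy).le
  exact mem_closedBall_zero_iff.1 (h hx)

theorem convex_hull (A : Set (E n)) : Convex ℝ (hull A) := (convex_convexHull ℝ A).closure

theorem isCompact_hull {A : Set (E n)} (hA : ∀ x ∈ A, ‖x‖ = 1) : IsCompact (hull A) := by
  refine Metric.isCompact_of_isClosed_isBounded isClosed_closure ?_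
  exact (isBounded_closedBall (x := (0 : E n)) (r := 1)).subset fun x hx =>
    mem_closedBall_zero_iff.2 (hull_norm hA hx)

/-- A linear functional attains its maximum over the hull on the set. -/
theorem exists_max {A : Set (E n)} (hA : IsCompact A) (hne : A.Nonempty) (a : E n) :
    ∃ e ∈ A, ∀ x ∈ hull A, inner ℝ x a ≤ inner ℝ e a := by
  obtain ⟨e, he, hmax⟩ := hA.exists_isMaxOn hne
    (f := fun x : E n => (inner ℝ x a : ℝ)) (by fun_prop)
  refine ⟨e, he, ?_⟩
  have h : hull A ⊆ {x | inner ℝ x a ≤ inner ℝ e a} := by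
    refine closure_minimal (convexHull_min (fun y hy => hmax hy) ?_) ?_
    · intro x hx y hy s t hs ht hst
      have hx' : (inner ℝ x a : ℝ) ≤ inner ℝ e a := hx
      have hy' : (inner ℝ y a : ℝ) ≤ inner ℝ e a := hy
      show inner ℝ (s • x + t • y) a ≤ inner ℝ e a
      rw [inner_add_left, real_inner_smul_left, real_inner_smul_left]
      calc s * inner ℝ x a + t * inner ℝ y a ≤ s * inner ℝ e a + t * inner ℝ e a :=
            add_le_add (mul_le_mul_of_nonneg_left hx' hs) (mul_le_mul_of_nonneg_left hy' ht)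
        _ = inner ℝ e a := by rw [← add_mul, hst, one_mul]
    · exact isClosed_le (by fun_prop) continuous_const
  exact fun x hx => h hx

/-- Two vectors of norm at most `1` whose inner product is at least `1` are equal. -/
theorem eq_of_one_le_inner {x y : E n} (hx : ‖x‖ ≤ 1) (hy : ‖y‖ ≤ 1) (h : 1 ≤ inner ℝ x y) :
    x = y := by
  have h1 := norm_sub_sq_real x y
  have h2 : ‖x - y‖ ^ 2 ≤ 0 := by
    nlinarith [norm_nonneg x, norm_nonneg y]
  have h3 : ‖x - y‖ = 0 := by
    have := sq_nonneg ‖x - y‖
    exact pow_eq_zero_iff (two_ne_zero) |>.1 (le_antisymm h2 this)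
  exact sub_eq_zero.1 (norm_eq_zero.1 h3)

/-- A point of the sphere in the hull is in the set. -/
theorem mem_of_mem_hull {A : Set (E n)} (hA : IsCompact A) (hA1 : ∀ x ∈ A, ‖x‖ = 1) {u : E n}
    (hu : ‖u‖ = 1) (huA : u ∈ hull A) : u ∈ A := by
  have hne : A.Nonempty := by
    rw [hull] at huA
    have := closure_nonempty_iff.1 ⟨u, huA⟩
    exact convexHull_nonempty_iff.1 this
  obtain ⟨e, he, hmax⟩ := exists_max hA hne u
  have h1 : (1 : ℝ) ≤ inner ℝ e u := by
    have := hmax u huA
    rwa [real_inner_self_eq_norm_sq, hu, one_pow] at this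
  rwa [← eq_of_one_le_inner (hA1 e he).le hu.le h1]

/-- If the hull is an ellipsoid, its boundary points are in the set. -/
theorem frontier_subset {A : Set (E n)} (hA : IsCompact A) (hE : IsEllipsoid (hull A)) {w : E n}
    (hw : w ∈ frontier (hull A)) : w ∈ A := by
  obtain ⟨L, c, hL⟩ := hE
  have hfr : frontier (hull A) = (fun x => c + L x) '' sphere (0 : E n) 1 := by
    have h1 := (L.toHomeomorph.trans (Homeomorph.addLeft c)).image_frontier (closedBall (0 : E n) 1)
    rw [frontier_closedBall (0 : E n) one_ne_zero] at h1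
    rw [hL]
    exact h1.symm
  rw [hfr] at hw
  obtain ⟨s, hs, rfl⟩ := hw
  rw [mem_sphere_zero_iff_norm] at hs
  have hne : A.Nonempty := by
    have h2 : (hull A).Nonempty := by
      rw [hL]
      exact ⟨_, ⟨0, by simp, rfl⟩⟩
    rw [hull] at h2
    exact convexHull_nonempty_iff.1 (closure_nonempty_iff.1 h2)
  -- the functional `x ↦ ⟪L⁻¹ x, s⟫`
  obtain ⟨e, he, hmax⟩ := exists_max hA hne ((L.symm : E n →L[ℝ] E n).adjoint s)
  have hmax' : ∀ x ∈ hull A, inner ℝ (L.symm x) s ≤ inner ℝ (L.symm e) s := by
    intro x hx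
    have := hmax x hx
    rw [ContinuousLinearMap.adjoint_inner_right, ContinuousLinearMap.adjoint_inner_right] at this
    exact this
  have heK : e ∈ hull A := subset_hull A he
  rw [hL] at heK
  obtain ⟨y, hy, rfl⟩ := heK
  rw [mem_closedBall_zero_iff] at hy
  have hwK : c + L s ∈ hull A := by
    rw [hL]
    exact ⟨s, mem_closedBall_zero_iff.2 hs.le, rfl⟩
  have h3 := hmax' _ hwK
  simp only [map_add, L.symm_apply_apply, inner_add_left] at h3
  have h4 : (1 : ℝ) ≤ inner ℝ y s := by
    rw [real_inner_self_eq_norm_sq, hs, one_pow] at h3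
    linarith
  have h5 := eq_of_one_le_inner hy hs.le h4
  rw [h5] at he
  exact he

/-- **The hull is not an ellipsoid.** -/
theorem not_isEllipsoid {A : Set (E n)} (hA : IsCompact A) (hA1 : ∀ x ∈ A, ‖x‖ = 1)
    (hint : (interior (hull A)).Nonempty) {u : E n} (hu : ‖u‖ = 1) (huA : u ∉ A) :
    ¬ IsEllipsoid (hull A) := by
  intro hE
  have huK : u ∉ hull A := fun h => huA (mem_of_mem_hull hA hA1 hu h)
  obtain ⟨z, hz⟩ := hint
  have hz1 : ‖z‖ < 1 := by
    have h1 : interior (hull A) ⊆ interior (closedBall (0 : E n) 1) :=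
      interior_mono fun x hx => mem_closedBall_zero_iff.2 (hull_norm hA1 hx)
    have h2 := h1 hz
    rw [interior_closedBall (0 : E n) one_ne_zero] at h2
    exact mem_ball_zero_iff.1 h2
  -- the segment from `z` to `u` meets the frontier
  have hpre : IsPreconnected (segment ℝ z u) := (convex_segment z u).isPreconnected
  have hw : (segment ℝ z u ∩ frontier (hull A)).Nonempty := by
    by_contra hemp
    rw [not_nonempty_iff_eq_empty] at hemp
    have hsub : segment ℝ z u ⊆ interior (hull A) ∪ (closure (hull A))ᶜ := by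
      intro x hx
      by_contra hx'
      rw [mem_union, not_or, mem_compl_iff, not_not] at hx'
      have : x ∈ segment ℝ z u ∩ frontier (hull A) := ⟨hx, hx'.2, hx'.1⟩
      rw [hemp] at this
      exact this
    have h1 := hpre.subset_left_of_subset_union isOpen_interior isClosed_closure.isOpen_compl
      (by
        rw [Set.disjoint_left]
        intro x hx hx'
        exact hx' (subset_closure (interior_subset hx))) hsub ⟨z, left_mem_segment ℝ z u, hz⟩
    exact huK (interior_subset (h1 (right_mem_segment ℝ z u)))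
  obtain ⟨w, hwseg, hwfr⟩ := hw
  have hwA := frontier_subset hA hE hwfr
  have hw1 := hA1 w hwA
  obtain ⟨a, b, ha, hb, hab, rfl⟩ := hwseg
  rcases ha.eq_or_lt with ha | ha
  · have hb1 : b = 1 := by linarith
    rw [← ha, hb1, zero_smul, one_smul, zero_add] at hwA
    exact huA hwA
  · have h2 : ‖a • z + b • u‖ ≤ a * ‖z‖ + b * ‖u‖ := by
      refine (norm_add_le _ _).trans (le_of_eq ?_)
      rw [norm_smul, norm_smul, Real.norm_eq_abs, Real.norm_eq_abs, abs_of_pos ha,
        abs_of_nonneg hb]
    rw [hw1, hu] at h2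
    nlinarith

/-- Invariance of the hull. -/
theorem eta_mem_hull {c : E n} (hc : ‖c‖ < 1) {A : Set (E n)} (hA : ∀ x ∈ A, ‖x‖ = 1)
    (hA' : ∀ x ∈ A, eta c x ∈ A) {x : E n} (hx : x ∈ hull A) : eta c x ∈ hull A := by
  have hcb : convexHull ℝ A ⊆ closedBall (0 : E n) 1 := fun y hy =>
    mem_closedBall_zero_iff.2 (hull_norm hA (subset_closure hy))
  have hx' : x ∈ closedBall (0 : E n) 1 := mem_closedBall_zero_iff.2 (hull_norm hA hx)
  have h1 : ContinuousWithinAt (eta c) (convexHull ℝ A) x := (continuousOn_eta hc x hx').mono hcb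
  exact h1.mem_closure hx fun y hy => eta_mem_convexHull hc (fun z hz => (hA z hz).le) hA' hy

/-! ### The surface -/

/-- The polytope bounded by the axes. -/
def body {ι : Type} (c : ι → E n) : Set (E n) := {x | ∀ i, inner ℝ x (c i) ≤ 1}

theorem convex_body {ι : Type} (c : ι → E n) : Convex ℝ (body c) := by
  intro x hx y hy s t hs ht hst i
  have hx' := hx i
  have hy' := hy i
  rw [inner_add_left, real_inner_smul_left, real_inner_smul_left]
  calc s * inner ℝ x (c i) + t * inner ℝ y (c i) ≤ s * 1 + t * 1 :=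
        add_le_add (mul_le_mul_of_nonneg_left hx' hs) (mul_le_mul_of_nonneg_left hy' ht)
    _ = 1 := by linarith

theorem isOpen_strict {ι : Type} [Finite ι] (c : ι → E n) :
    IsOpen {x : E n | ∀ i, inner ℝ x (c i) < 1} := by
  have : {x : E n | ∀ i, inner ℝ x (c i) < 1} = ⋂ i, {x : E n | inner ℝ x (c i) < 1} := by
    ext x; simp
  rw [this]
  exact isOpen_iInter_of_finite fun i => isOpen_lt (by fun_prop) continuous_const

theorem strict_subset {ι : Type} [Finite ι] (c : ι → E n) :
    {x : E n | ∀ i, inner ℝ x (c i) < 1} ⊆ interior (body c) :=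
  interior_maximal (fun _ hx i => (hx i).le) (isOpen_strict c)

theorem ball_subset {ι : Type} [Finite ι] {c : ι → E n} (hc : ∀ i, ‖c i‖ < 1) {x : E n}
    (hx : ‖x‖ ≤ 1) : x ∈ interior (body c) :=
  strict_subset c fun i => inner_lt_one (hc i) hx

theorem isClosed_body {ι : Type} (c : ι → E n) : IsClosed (body c) := by
  have : body c = ⋂ i, {x : E n | inner ℝ x (c i) ≤ 1} := by
    ext x; simp [body]
  rw [this]
  exact isClosed_iInter fun i => isClosed_le (by fun_prop) continuous_const

theorem frontier_body {ι : Type} [Finite ι] {c : ι → E n} {p : E n} (hp : p ∈ frontier (body c)) :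
    ∃ i, inner ℝ p (c i) = 1 := by
  by_contra h
  push Not at h
  have h1 : p ∈ body c := (isClosed_body c).frontier_subset hp
  exact hp.2 (strict_subset c fun i => lt_of_le_of_ne (h1 i) (h i))

theorem isTopologicalSphere_frontier {ι : Type} [Finite ι] {c : ι → E n} (hc : ∀ i, ‖c i‖ < 1)
    (hb : Bornology.IsBounded (body c)) : IsTopologicalSphere (frontier (body c)) := by
  obtain ⟨h, -, -, hfr⟩ := exists_homeomorph_image_interior_closure_frontier_eq_unitBall
    (convex_body c) ⟨0, ball_subset hc (by simp)⟩ hb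
  refine ⟨(h.image (frontier (body c))).trans (Homeomorph.setCongr hfr)⟩

theorem liesInside {ι : Type} [Finite ι] {c : ι → E n} (hc : ∀ i, ‖c i‖ < 1)
    (hb : Bornology.IsBounded (body c)) {K : Set (E n)} (hne : K.Nonempty)
    (hK : ∀ x ∈ K, ‖x‖ ≤ 1) : LiesInside K (frontier (body c)) := by
  obtain ⟨x, hx⟩ := hne
  have hint : ∀ y, y ∈ interior (body c) → y ∈ (frontier (body c))ᶜ := fun y hy hfr => hfr.2 hy
  have hxi := ball_subset hc (hK x hx)
  have hpre : IsPreconnected (interior (body c)) := (convex_body c).interior.isPreconnected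
  refine ⟨x, hint x hxi, ?_, ?_⟩
  · refine hb.subset (Subset.trans ?_ interior_subset)
    refine isPreconnected_connectedComponentIn.subset_left_of_subset_union isOpen_interior
      isClosed_closure.isOpen_compl ?_ ?_ ⟨x, mem_connectedComponentIn (hint x hxi), hxi⟩
      (v := (closure (body c))ᶜ)
    · rw [Set.disjoint_left]
      intro y hy hy'
      exact hy' (subset_closure (interior_subset hy))
    · intro y hy
      have hy' := connectedComponentIn_subset _ _ hy
      by_contra hc'
      rw [mem_union, not_or, mem_compl_iff, not_not] at hc'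
      exact hy' ⟨hc'.2, hc'.1⟩
  · intro y hy
    exact hpre.subset_connectedComponentIn hxi (fun z hz => hint z hz) (ball_subset hc (hK y hy))

end Pool.Agent.Lib.MP_3d3a24_gt
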