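import Pool.Agent.Lib.MP_3d3a24_gt.Homology

/-!
# Ping-pong

The orbit of a point of the unit sphere under finitely many of the involutions `eta c`, whose caps
`{x | ‖c‖ ^ 2 ≤ ⟪x, c⟫}` are disjoint, is not dense in the sphere.
-/

set_option autoImplicit false

namespace Pool.Agent.Lib.MP_3d3a24_gt

open Set Metric

variable {n : ℕ} {ι : Type}

/-- The orbit of `x₀`; the label remembers the last involution that was applied. -/
inductive Orb (c : ι → E n) (x₀ : E n) : Option ι → E n → Prop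
  | base : Orb c x₀ none x₀
  | step {o : Option ι} {x : E n} (i : ι) : Orb c x₀ o x → o ≠ some i →
      Orb c x₀ (some i) (eta (c i) x)

/-- The orbit. -/
def orbit (c : ι → E n) (x₀ : E n) : Set (E n) := {x | ∃ o, Orb c x₀ o x}

/-- The hypotheses of the ping-pong argument. -/
structure PingPong (c : ι → E n) (x₀ : E n) : Prop where
  norm_lt : ∀ i, ‖c i‖ < 1
  norm_base : ‖x₀‖ = 1
  base : ∀ i, inner ℝ x₀ (c i) < ‖c i‖ ^ 2
  disj : ∀ i j, i ≠ j → ∀ x : E n, ‖x‖ = 1 → ‖c j‖ ^ 2 < inner ℝ x (c j) →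
    inner ℝ x (c i) < ‖c i‖ ^ 2

theorem Orb.prop {c : ι → E n} {x₀ : E n} (h : PingPong c x₀) {o : Option ι} {x : E n}
    (hx : Orb c x₀ o x) : ‖x‖ = 1 ∧ (o = none → x = x₀) ∧
      ∀ i, o = some i → ‖c i‖ ^ 2 < inner ℝ x (c i) := by
  induction hx with
  | base => exact ⟨h.norm_base, fun _ => rfl, (fun i hi => by cases hi)⟩
  | @step o x i hx ho ih =>
    obtain ⟨h1, h2, h3⟩ := ih
    refine ⟨norm_eta_eq (h.norm_lt i) h1, (fun hi => by cases hi), fun j hj => ?_⟩
    obtain rfl : i = j := by simpa using hj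
    refine lt_inner_eta (h.norm_lt i) h1.le ?_
    match o, ho, h2, h3 with
    | none, _, h2, _ =>
      rw [h2 rfl]
      exact h.base i
    | some k, ho, _, h3 =>
      exact h.disj i k (fun hik => ho (by rw [hik])) x h1 (h3 k rfl)

theorem orbit_norm {c : ι → E n} {x₀ : E n} (h : PingPong c x₀) {x : E n}
    (hx : x ∈ orbit c x₀) : ‖x‖ = 1 := by
  obtain ⟨o, ho⟩ := hx
  exact (ho.prop h).1

theorem eta_mem_orbit {c : ι → E n} {x₀ : E n} (h : PingPong c x₀) (i : ι) {x : E n}
    (hx : x ∈ orbit c x₀) : eta (c i) x ∈ orbit c x₀ := by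
  obtain ⟨o, ho⟩ := hx
  by_cases hoi : o = some i
  · subst hoi
    cases ho with
    | @step o' y _ hy hne =>
      rw [eta_eta (h.norm_lt i) ((hy.prop h).1.le)]
      exact ⟨o', hy⟩
  · exact ⟨some i, Orb.step i ho hoi⟩

/-- The closure of the orbit. -/
def orbitClosure (c : ι → E n) (x₀ : E n) : Set (E n) := closure (orbit c x₀)

theorem orbitClosure_norm {c : ι → E n} {x₀ : E n} (h : PingPong c x₀) {x : E n}
    (hx : x ∈ orbitClosure c x₀) : ‖x‖ = 1 := by
  have h1 : orbitClosure c x₀ ⊆ sphere (0 : E n) 1 := by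
    refine closure_minimal (fun y hy => ?_) isClosed_sphere
    rw [mem_sphere_zero_iff_norm]
    exact orbit_norm h hy
  exact mem_sphere_zero_iff_norm.1 (h1 hx)

theorem eta_mem_orbitClosure {c : ι → E n} {x₀ : E n} (h : PingPong c x₀) (i : ι) {x : E n}
    (hx : x ∈ orbitClosure c x₀) : eta (c i) x ∈ orbitClosure c x₀ := by
  have hcb : orbit c x₀ ⊆ closedBall (0 : E n) 1 := fun y hy =>
    mem_closedBall_zero_iff.2 (orbit_norm h hy).le
  have hx' : x ∈ closedBall (0 : E n) 1 :=
    mem_closedBall_zero_iff.2 (orbitClosure_norm h hx).le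
  have h1 : ContinuousWithinAt (eta (c i)) (orbit c x₀) x :=
    (continuousOn_eta (h.norm_lt i) x hx').mono hcb
  exact h1.mem_closure hx fun y hy => eta_mem_orbit h i hy

theorem isCompact_orbitClosure {c : ι → E n} {x₀ : E n} (h : PingPong c x₀) :
    IsCompact (orbitClosure c x₀) := by
  refine Metric.isCompact_of_isClosed_isBounded isClosed_closure ?_
  refine (isBounded_closedBall (x := (0 : E n)) (r := 1)).subset fun x hx => ?_
  exact mem_closedBall_zero_iff.2 (orbitClosure_norm h hx).le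

theorem mem_orbitClosure_base (c : ι → E n) (x₀ : E n) : x₀ ∈ orbitClosure c x₀ :=
  subset_closure ⟨none, Orb.base⟩

/-- A point outside all the caps and different from `x₀` is not in the closure of the orbit. -/
theorem notMem_orbitClosure [Finite ι] {c : ι → E n} {x₀ : E n} (h : PingPong c x₀) {u : E n}
    (hu : u ≠ x₀) (hu' : ∀ i, inner ℝ u (c i) < ‖c i‖ ^ 2) : u ∉ orbitClosure c x₀ := by
  intro hmem
  have hsub : orbitClosure c x₀ ⊆ {x₀} ∪ ⋃ i, {x : E n | ‖c i‖ ^ 2 ≤ inner ℝ x (c i)} := by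
    refine closure_minimal ?_ ?_
    · rintro x ⟨o, ho⟩
      obtain ⟨-, h2, h3⟩ := ho.prop h
      match o, h2, h3 with
      | none, h2, _ => exact Or.inl (h2 rfl)
      | some i, _, h3 => exact Or.inr (mem_iUnion.2 ⟨i, (h3 i rfl).le⟩)
    · refine isClosed_singleton.union (isClosed_iUnion_of_finite fun i => ?_)
      exact isClosed_le continuous_const (by fun_prop)
  rcases hsub hmem with h1 | h1
  · exact hu h1
  · obtain ⟨i, hi⟩ := mem_iUnion.1 h1
    exact absurd (hu' i) (not_lt.2 hi)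

end Pool.Agent.Lib.MP_3d3a24_gt
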